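import Mathlib

namespace Pool.Agent.Results.MP_a23160_lc.Q1

open Set

lemma cnt (A : Set ℝ) (h : ∀ y ∈ A, (A ∩ Iic y).Countable) : A.Countable := by
  have a : (⋃ q : {q : ℚ // ∃ y ∈ A, (q : ℝ) ≤ y}, A ∩ Iic (q.1 : ℝ)).Countable :=
    countable_iUnion fun ⟨q, y, a, b⟩ => (h y a).mono (inter_subset_inter_right _ (Iic_subset_Iic.2 b))
  have b : {x | IsGreatest A x}.Subsingleton := fun x a y b => a.unique b
  refine (a.union b.finite.countable).mono fun x m => or_iff_not_imp_right.2 fun n => ?_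
  obtain ⟨y, c, d⟩ : ∃ y ∈ A, x < y := by simpa [IsGreatest, m, upperBounds] using n
  obtain ⟨q, e, f⟩ := exists_rat_btwn d
  exact mem_iUnion.2 ⟨⟨q, y, c, f.le⟩, m, e.le⟩

theorem result : ∃ χ : Sym2 ℝ → Bool,
    (∀ x y z t : ℝ, x ≠ y → z ≠ t → |x - y| = |z - t| → χ s(x, y) = χ s(z, t)) ∧
    ∀ X : Set ℝ, (∃ c, ∀ x ∈ X, ∀ y ∈ X, x ≠ y → χ s(x, y) = c) → X.Countable := by
  classical
  obtain ⟨ι, ⟨b⟩⟩ : ∃ ι : Type, Nonempty (Module.Basis ι ℚ ℝ) := ⟨_, ⟨.ofVectorSpace ℚ ℝ⟩⟩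
  obtain ⟨_, _⟩ := exists_wellOrder ι
  let P (z : ℝ) := ∃ i, 0 < b.repr z i ∧ ∀ j > i, b.repr z j = 0
  refine ⟨Sym2.lift ⟨fun x y => decide (P |x - y|), fun x y => by simp only [abs_sub_comm]⟩,
    fun x y z t _ _ h => by simp [h], fun X ⟨c, hc⟩ => by_contra fun n => ?_⟩
  simp only [Sym2.lift_mk] at hc
  obtain ⟨α, ⟨Y, s, u, e⟩, m⟩ := wellFounded_lt.has_min {α : WithTop ι | ∃ Y ⊆ X, ¬ Y.Countable ∧
    ∀ x ∈ Y, ∀ y ∈ Y, ∀ j : ι, α ≤ j → b.repr x j = b.repr y j} ⟨⊤, X, le_rfl, n, by simp⟩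
  obtain ⟨o, ho⟩ : Y.Nonempty := nonempty_iff_ne_empty.2 fun h => u (by simp [h])
  have top (z : ℝ) (h : z ≠ 0) : ∃ i, b.repr z i ≠ 0 ∧ ∀ j > i, b.repr z j = 0 := by
    obtain ⟨i, a, k⟩ := (b.repr z).support.exists_max_image id (by simpa using h)
    exact ⟨i, by simpa using a, fun j hj => by_contra fun n => (k j (by simpa using n)).not_gt hj⟩
  have pos (z i) (a : b.repr z i ≠ 0) (k : ∀ j > i, b.repr z j = 0) : P z ↔ 0 < b.repr z i := by
    refine ⟨fun ⟨j, p, q⟩ => ?_, fun h => ⟨i, h, k⟩⟩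
    rcases lt_trichotomy i j with h | rfl | h
    exacts [absurd (k j h) p.ne', p, absurd (q i h) a]
  have key (y) (hy : y ∈ Y) : (Y ∩ (Ioo o y ∪ Ioo y o)).Countable := by
    obtain rfl | yo := eq_or_ne y o
    · simp
    obtain ⟨i, a, k⟩ := top _ (sub_ne_zero.2 yo)
    have iα : ↑i < α := not_le.1 fun h => a (by simp [e y hy o ho i h])
    refine (countable_iUnion fun q : ℚ => (by_contra fun n => m i ⟨_, sep_subset _ _ |>.trans s, n, ?_⟩ iα :
      {x ∈ Y | b.repr x i = q ∧ ∀ j > i, b.repr x j = b.repr o j}.Countable)).mono fun x ⟨hx, w⟩ => ?_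
    · rintro x ⟨-, p, r⟩ y ⟨-, t, v⟩ j hj
      rcases (WithTop.coe_le_coe.1 hj).eq_or_lt with rfl | h
      exacts [p.trans t.symm, (r j h).trans (v j h).symm]
    refine mem_iUnion.2 ⟨_, hx, rfl, fun j hj => by_contra fun n => ?_⟩
    have xo : x ≠ o := by rintro rfl; simp at w
    have xy : x ≠ y := by rintro rfl; simp at w
    obtain ⟨l, a1, k1⟩ := top _ (sub_ne_zero.2 xo)
    have il : i < l := hj.trans_le (not_lt.1 fun h => n (by simpa [sub_eq_zero] using k1 j h))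
    have E (j) (h : l ≤ j) : b.repr (y - x) j = -b.repr (x - o) j := by
      have := k j (il.trans_le h)
      simp at this ⊢; linarith
    have c1 := (hc x (s hx) o (s ho) xo).trans (hc y (s hy) x (s hx) xy.symm).symm
    have p1 := pos (x - o) l a1 k1
    have p2 := pos (-(x - o)) l (by rwa [map_neg, Finsupp.neg_apply, neg_ne_zero])
      fun j h => by rw [map_neg, Finsupp.neg_apply, k1 j h, neg_zero]
    have p3 := pos (y - x) l (by rwa [E l le_rfl, neg_ne_zero]) fun j h => by rw [E j h.le, k1 j h, neg_zero]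
    have p4 := pos (-(y - x)) l (by rwa [map_neg, Finsupp.neg_apply, E l le_rfl, neg_neg]) fun j h => by
      rw [map_neg, Finsupp.neg_apply, E j h.le, k1 j h]; simp
    rw [map_neg, Finsupp.neg_apply] at p2 p4
    rw [E l le_rfl] at p3 p4
    rw [decide_eq_decide] at c1
    rcases w with ⟨w, w'⟩ | ⟨w, w'⟩
    · rw [abs_of_pos (by linarith), abs_of_pos (by linarith), p1, p3] at c1; grind
    · rw [abs_of_neg (by linarith), abs_of_neg (by linarith), p2, p4] at c1; grind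
  have a := cnt (Y ∩ Ioi o) fun y hy => ((key y hy.1).insert y).mono fun x ⟨⟨p, q⟩, r⟩ =>
    (eq_or_lt_of_le (mem_Iic.1 r)).imp_right fun h => ⟨p, .inl ⟨q, h⟩⟩
  have b := cnt (-(Y ∩ Iio o)) fun y hy => (((key (-y) hy.1).insert (-y)).image (-·)).mono
    fun x ⟨⟨p, q⟩, r⟩ => (mem_image _ _ _).2 ⟨-x, (eq_or_lt_of_le (neg_le_neg (mem_Iic.1 r))).imp
      Eq.symm fun h => ⟨p, .inr ⟨h, q⟩⟩, neg_neg x⟩
  refine u (((a.union (b.image (-·))).insert o).mono fun x h => ?_)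
  rcases lt_trichotomy x o with k | k | k
  exacts [.inr (.inr ⟨-x, ⟨by simpa, by simpa⟩, neg_neg x⟩), .inl k, .inr (.inl ⟨h, k⟩)]

end Pool.Agent.Results.MP_a23160_lc.Q1
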